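import Mathlib
import Pool.Agent.H25.LD.Final

/-! MP_e449c6_nt, Q1: the four-parameter Legendre-symbol determinant of order `(p-3)/2`. -/

open NumberField

namespace Pool.Agent.Results.MP_e449c6_nt.LegendreDet

open Pool.Agent.H25.LD
open Pool.Agent.H29.LD (exists_omega)

/-- The matrix `[x + (j-k/p) + (j/p) y + (k/p) z + (jk/p) w]` with `0 ≤ j, k ≤ (p-5)/2`. -/
noncomputable def legMatrix (p : ℕ) [Fact p.Prime] (x y z w : ℂ) :
    Matrix (Fin ((p - 3) / 2)) (Fin ((p - 3) / 2)) ℂ :=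
  Matrix.of fun j k => x + (legendreSym p ((j : ℤ) - (k : ℤ)) : ℂ) +
    (legendreSym p (j : ℤ) : ℂ) * y + (legendreSym p (k : ℤ) : ℂ) * z +
    (legendreSym p ((j : ℤ) * (k : ℤ)) : ℂ) * w

/-- The real quadratic field `ℚ(√p)` as a subfield of `ℝ`. -/
noncomputable def QSqrt (p : ℕ) : IntermediateField ℚ ℝ :=
  IntermediateField.adjoin ℚ {√(p : ℝ)}

theorem mem_QSqrt (p : ℕ) : √(p : ℝ) ∈ QSqrt p :=
  IntermediateField.subset_adjoin ℚ _ (Set.mem_singleton _)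

theorem isIntegral_sqrt (p : ℕ) : IsIntegral ℚ (√(p : ℝ)) := by
  refine ⟨Polynomial.X ^ 2 - Polynomial.C (p : ℚ), Polynomial.monic_X_pow_sub_C _ (by norm_num), ?_⟩
  simp

instance (p : ℕ) : NumberField (QSqrt p) where
  to_charZero := inferInstance
  to_finiteDimensional := IntermediateField.adjoin.finiteDimensional (isIntegral_sqrt p)

theorem legMatrix_eq (p : ℕ) [Fact p.Prime] (x y z w : ℂ) :
    legMatrix p x y z w = DM p ((p - 3) / 2) x y z w := by
  ext j k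
  simp only [legMatrix, DM, Matrix.of_apply, legendreSym, qc]
  push_cast
  rfl

theorem exists_rep (p : ℕ) [Fact p.Prime] (x : QSqrt p) :
    ∃ a b : ℚ, x = (a : QSqrt p) + b * ⟨√(p : ℝ), mem_QSqrt p⟩ := by
  have hirr : Irrational (√(p : ℝ)) := (Fact.out : p.Prime).irrational_sqrt
  have hs : √(p : ℝ) * √(p : ℝ) = p := Real.mul_self_sqrt (Nat.cast_nonneg p)
  have key : ∀ x ∈ QSqrt p, ∃ a b : ℚ, x = (a : ℝ) + b * √(p : ℝ) := by
    intro x hx
    refine IntermediateField.adjoin_induction (F := ℚ) (s := {√(p : ℝ)})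
      (p := fun x _ => ∃ a b : ℚ, x = (a : ℝ) + b * √(p : ℝ)) ?_ ?_ ?_ ?_ ?_ hx
    · intro x hx
      rw [Set.mem_singleton_iff] at hx
      exact ⟨0, 1, by rw [hx]; push_cast; ring⟩
    · intro r
      exact ⟨r, 0, by simp⟩
    · rintro x y _ _ ⟨a, b, rfl⟩ ⟨c, d, rfl⟩
      exact ⟨a + c, b + d, by push_cast; ring⟩
    · rintro x _ ⟨a, b, rfl⟩
      by_cases h0 : (a : ℝ) + b * √(p : ℝ) = 0
      · exact ⟨0, 0, by rw [h0]; simp⟩
      · have h1 : (a : ℝ) ^ 2 - p * b ^ 2 ≠ 0 := by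
          intro h
          have h2 : ((a : ℝ) + b * √(p : ℝ)) * (a - b * √(p : ℝ)) = 0 := by
            linear_combination h - (b : ℝ) ^ 2 * hs
          rcases mul_eq_zero.1 h2 with h3 | h3
          · exact h0 h3
          · by_cases hb : b = 0
            · rw [hb] at h3 h0
              push_cast at h3 h0
              apply h0; linarith
            · apply hirr
              refine ⟨a / b, ?_⟩
              push_cast
              have hb' : (b : ℝ) ≠ 0 := by exact_mod_cast hb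
              field_simp
              linarith
        refine ⟨a / (a ^ 2 - p * b ^ 2), -b / (a ^ 2 - p * b ^ 2), ?_⟩
        push_cast
        apply inv_eq_of_mul_eq_one_right
        have h5 : ((a : ℝ) + b * √(p : ℝ)) *
            (a / (a ^ 2 - p * b ^ 2) + -b / (a ^ 2 - p * b ^ 2) * √(p : ℝ)) =
            (a ^ 2 - b ^ 2 * (√(p : ℝ) * √(p : ℝ))) / (a ^ 2 - p * b ^ 2) := by ring
        rw [h5, hs, div_eq_one_iff_eq h1]
        ring
    · rintro x y _ _ ⟨a, b, rfl⟩ ⟨c, d, rfl⟩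
      exact ⟨a * c + p * b * d, a * d + b * c, by
        push_cast; linear_combination (b * d : ℝ) * hs⟩
  obtain ⟨a, b, hab⟩ := key x x.2
  refine ⟨a, b, ?_⟩
  apply Subtype.ext
  rw [hab]
  push_cast
  rfl

theorem main_one (p : ℕ) [Fact p.Prime] (hp : p % 4 = 1) :
    ∃ (ε : ℝ) (a b : ℚ),
      IsLeast {x : ℝ | 1 < x ∧ ∃ u : (𝓞 (QSqrt p))ˣ, ((u : QSqrt p) : ℝ) = x} ε ∧
      ε ^ ((2 - legendreSym p 2) * (classNumber (QSqrt p) : ℤ)) = a + b * √(p : ℝ) ∧
      (∃ m n : ℤ, 2 * a = m ∧ 2 * b = n) ∧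
      ∀ x y z w : ℂ, (legMatrix p x y z w).det =
        legendreSym p 2 * (2 * a - p * b) * x + (a - 2 * b) * ((1 + y) * (1 + z) - w * x) := by
  obtain ⟨ψ, hψ, hτ⟩ := exists_psi (p := p) hp
  have hp0 : (0 : ℝ) < p := by exact_mod_cast (Fact.out : p.Prime).pos
  have hirr : Irrational (√(p : ℝ)) := (Fact.out : p.Prime).irrational_sqrt
  obtain ⟨θ, hθ⟩ : ∃ θ : QSqrt p, θ = ⟨√(p : ℝ), mem_QSqrt p⟩ := ⟨_, rfl⟩
  have hθr : (algebraMap (QSqrt p) ℝ) θ = √(p : ℝ) := by rw [hθ]; rfl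
  have hK : ∀ x : QSqrt p, ∃ a b : ℚ, x = a + b * θ := by
    intro x; rw [hθ]; exact exists_rep p x
  have hζ := isPrimitiveRoot_psi hψ
  have hτ' : ∑ a ∈ Finset.range p, (legendreSym p a : ℂ) * (ψ 1) ^ a = ((√p : ℝ) : ℂ) := by
    rw [← hτ]
    unfold tau
    rw [sum_zmod_range]
    refine Finset.sum_congr rfl fun a _ => ?_
    rw [psi_natCast]
    simp [legendreSym, qc]
  obtain ⟨ε, hε, hsum⟩ := class_number_formula p hp (QSqrt p) (algebraMap (QSqrt p) ℝ) θ hθr hK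
    (ψ 1) hζ hτ'
  obtain ⟨a, b, hab, hD⟩ := part_one hp hψ
  have hε1 : 1 < ε := hε.1.1
  have hL : ∑ d, (qc p d : ℝ) * ll ψ d = -(2 * (classNumber (QSqrt p) : ℕ) * Real.log ε) := by
    rw [← hsum, sum_zmod_range]
    refine Finset.sum_congr rfl fun a _ => ?_
    unfold ll
    rw [psi_natCast]
    simp [legendreSym, qc]
  have hval := value_eq hp hψ hε1 hL
  rw [← hτ, ← hab, hτ] at hval
  have hval' : ((a + b * √(p : ℝ) : ℝ) : ℂ) =
      ((ε ^ ((2 - qc p 2) * (classNumber (QSqrt p) : ℤ)) : ℝ) : ℂ) := by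
    rw [← hval]; push_cast; ring
  have hval2 := Complex.ofReal_injective hval'
  have hl2 : legendreSym p 2 = qc p 2 := by simp [legendreSym, qc]
  refine ⟨ε, a, b, hε, ?_, ?_, ?_⟩
  · rw [hl2, hval2]
  · -- half-integrality
    obtain ⟨u, hu⟩ := hε.1.2
    have hθ2 : θ ^ 2 = p := by
      apply (algebraMap (QSqrt p) ℝ).injective
      rw [map_pow, hθr, Real.sq_sqrt hp0.le, map_natCast]
    obtain ⟨ω, hω2, _, hb⟩ := exists_omega p hp (QSqrt p) θ hθ2 hK
    obtain ⟨m, n, hmn⟩ := hb ((u ^ ((2 - qc p 2) * (classNumber (QSqrt p) : ℤ)) :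
      (𝓞 (QSqrt p))ˣ) : 𝓞 (QSqrt p))
    have h1 : (((u ^ ((2 - qc p 2) * (classNumber (QSqrt p) : ℤ)) : (𝓞 (QSqrt p))ˣ) :
        QSqrt p) : ℝ) = ε ^ ((2 - qc p 2) * (classNumber (QSqrt p) : ℤ)) := by
      rw [← hu, NumberField.Units.coe_zpow]
      rfl
    have h2 : (((u ^ ((2 - qc p 2) * (classNumber (QSqrt p) : ℤ)) : (𝓞 (QSqrt p))ˣ) :
        QSqrt p) : ℝ) = m + n * ((ω : QSqrt p) : ℝ) := by
      have := congrArg (fun t : 𝓞 (QSqrt p) => ((t : QSqrt p) : ℝ)) hmn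
      simpa using this
    have h3 : 2 * ((ω : QSqrt p) : ℝ) = 1 + √(p : ℝ) := by
      have := congrArg (fun t : QSqrt p => (t : ℝ)) hω2
      rw [hθ] at this
      push_cast at this
      exact this
    have h4 : (2 * b - n : ℝ) * √(p : ℝ) = (2 * m + n - 2 * a : ℝ) := by
      rw [h1, ← hval2] at h2
      linear_combination 2 * h2 + n * h3
    have h5 : (2 * b - n : ℚ) = 0 := by
      by_contra h6
      have h6' : ((2 * b - n : ℚ) : ℝ) ≠ 0 := by exact_mod_cast h6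
      apply hirr
      refine ⟨(2 * m + n - 2 * a) / (2 * b - n), ?_⟩
      push_cast at h6' ⊢
      rw [← h4]; field_simp
    have h5' : (2 * b - n : ℝ) = 0 := by exact_mod_cast congrArg (Rat.cast : ℚ → ℝ) h5
    have h7 : (2 * m + n - 2 * a : ℚ) = 0 := by
      rw [h5', zero_mul] at h4
      exact_mod_cast h4.symm
    refine ⟨2 * m + n, n, ?_, ?_⟩
    · push_cast; linarith
    · linarith
  · intro x y z w
    rw [legMatrix_eq, hD, hl2]

/-- Q1: the conjectured formula holds for every prime `p ≥ 5`. -/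
theorem result (p : ℕ) [Fact p.Prime] (hp5 : 5 ≤ p) :
    (p % 4 = 3 → ∀ x y z w : ℂ, (legMatrix p x y z w).det = w * x + (1 + y) * (1 - z)) ∧
    (p % 4 = 1 → ∃ (ε : ℝ) (a b : ℚ),
      IsLeast {x : ℝ | 1 < x ∧ ∃ u : (𝓞 (QSqrt p))ˣ, ((u : QSqrt p) : ℝ) = x} ε ∧
      ε ^ ((2 - legendreSym p 2) * (classNumber (QSqrt p) : ℤ)) = a + b * √(p : ℝ) ∧
      (∃ m n : ℤ, 2 * a = m ∧ 2 * b = n) ∧
      ∀ x y z w : ℂ, (legMatrix p x y z w).det =
        legendreSym p 2 * (2 * a - p * b) * x + (a - 2 * b) * ((1 + y) * (1 + z) - w * x)) := by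
  refine ⟨fun hp x y z w => ?_, fun hp => main_one p hp⟩
  rw [legMatrix_eq]
  exact part_three hp hp5 x y z w

end Pool.Agent.Results.MP_e449c6_nt.LegendreDet
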